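import Pool.Agent.L5helper98.CG.Defs

/-!
# RIE: passage from Riemann sums to the field (MP_e22585_pr)
-/

set_option autoImplicit false

open MeasureTheory ProbabilityTheory Filter Topology Set
open scoped ENNReal BoundedContinuousFunction RealInnerProductSpace

namespace Pool.Agent.L5helper94.CG

open Pool.Agent.L5helper98.CG

section Field

variable {c : Bool} {r : ℝ → ℝ} {μ ε : ℝ} {Ω : Type} [MeasurableSpace Ω]
    {P : Measure Ω} [IsProbabilityMeasure P] {ω : ℝ → Ω → ℝ}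

lemma field_meas (h : Field c r μ ε P ω) (t : ℝ) : Measurable (ω t) :=
  h.meas.comp (measurable_prodMk_left (x := t))

lemma dst_self (c : Bool) (t : ℝ) : dst c t t = 0 := by
  unfold dst; split_ifs <;> simp

lemma field_gauss (h : Field c r μ ε P ω) {t : ℝ} (ht : t ∈ Ico (0 : ℝ) 1) :
    HasGaussianLaw (ω t) P := h.gauss.hasGaussianLaw_eval ⟨t, ht⟩

lemma field_memLp (h : Field c r μ ε P ω) {t : ℝ} (ht : t ∈ Ico (0 : ℝ) 1) :
    MemLp (ω t) 2 P := (field_gauss h ht).memLp_two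

lemma field_var (h : Field c r μ ε P ω) {t : ℝ} (ht : t ∈ Ico (0 : ℝ) 1) :
    Var[ω t; P] = cv r μ ε 0 := by
  rw [← covariance_self (field_meas h t).aemeasurable, h.cov t ht t ht, dst_self]

lemma field_mean (h : Field c r μ ε P ω) {t : ℝ} (ht : t ∈ Ico (0 : ℝ) 1) :
    ∫ x, ω t x ∂P = -(cv r μ ε 0) / 2 := by
  rw [h.mean t ht, field_var h ht]

/-- exponential moments of a Gaussian variable -/
lemma gauss_exp {X : Ω → ℝ} (hX : HasGaussianLaw X P) (a : ℝ) :
    Integrable (fun x => Real.exp (a * X x)) P ∧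
    ∫ x, Real.exp (a * X x) ∂P = Real.exp (P[X] * a + Var[X; P] * a ^ 2 / 2) := by
  have h := mgf_gaussianReal hX.map_eq_gaussianReal a
  rw [Real.coe_toNNReal _ (variance_nonneg _ _)] at h
  refine ⟨?_, h⟩
  by_contra hn
  have h0 : mgf X P a = 0 := mgf_undef hn
  rw [h0] at h
  exact absurd h.symm (Real.exp_pos _).ne'

lemma field_exp (h : Field c r μ ε P ω) {t : ℝ} (ht : t ∈ Ico (0 : ℝ) 1) (a : ℝ) :
    Integrable (fun x => Real.exp (a * ω t x)) P ∧
    ∫ x, Real.exp (a * ω t x) ∂P = Real.exp (cv r μ ε 0 * (a ^ 2 - a) / 2) := by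
  obtain ⟨h1, h2⟩ := gauss_exp (field_gauss h ht) a
  refine ⟨h1, ?_⟩
  rw [h2, field_mean h ht, field_var h ht]
  congr 1
  ring

lemma field_exp_one (h : Field c r μ ε P ω) {t : ℝ} (ht : t ∈ Ico (0 : ℝ) 1) :
    Integrable (fun x => Real.exp (ω t x)) P ∧ ∫ x, Real.exp (ω t x) ∂P = 1 := by
  have := field_exp h ht 1
  simpa using this

lemma field_exp_add (h : Field c r μ ε P ω) {s t : ℝ} (hs : s ∈ Ico (0 : ℝ) 1)
    (ht : t ∈ Ico (0 : ℝ) 1) :
    Integrable (fun x => Real.exp (ω s x) * Real.exp (ω t x)) P ∧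
    ∫ x, Real.exp (ω s x) * Real.exp (ω t x) ∂P = Real.exp (cv r μ ε (dst c s t)) := by
  have hG : HasGaussianLaw (fun x => ω s x + ω t x) P :=
    h.gauss.hasGaussianLaw_fun_add (s := ⟨s, hs⟩) (t := ⟨t, ht⟩)
  obtain ⟨h1, h2⟩ := gauss_exp hG 1
  have hi1 : Integrable (ω s) P := (field_gauss h hs).integrable
  have hi2 : Integrable (ω t) P := (field_gauss h ht).integrable
  have hv : Var[fun x => ω s x + ω t x; P] =
      cv r μ ε 0 + 2 * cv r μ ε (dst c s t) + cv r μ ε 0 := by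
    rw [variance_fun_add (field_memLp h hs) (field_memLp h ht), field_var h hs, field_var h ht,
      h.cov s hs t ht]
  have he : ∀ x, Real.exp (ω s x) * Real.exp (ω t x) = Real.exp (1 * (ω s x + ω t x)) := fun x => by
    rw [one_mul, Real.exp_add]
  simp_rw [he]
  refine ⟨h1, ?_⟩
  rw [h2, hv, integral_add hi1 hi2, field_mean h hs, field_mean h ht]
  congr 1
  ring

/-- the `L¹` distance of the exponentials -/
lemma field_dist (h : Field c r μ ε P ω) {s t : ℝ} (hs : s ∈ Ico (0 : ℝ) 1)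
    (ht : t ∈ Ico (0 : ℝ) 1) :
    ∫⁻ x, ‖Real.exp (ω s x) - Real.exp (ω t x)‖ₑ ∂P ≤
      ENNReal.ofReal (Real.sqrt (2 * (Real.exp (cv r μ ε 0) - Real.exp (cv r μ ε (dst c s t))))) := by
  have hms := field_meas h s
  have hmt := field_meas h t
  set Z : Ω → ℝ := fun x => |Real.exp (ω s x) - Real.exp (ω t x)| with hZ
  have hZm : Measurable Z := by fun_prop
  have hsq : ∀ x, Z x ^ 2 = Real.exp (2 * ω s x) + Real.exp (2 * ω t x) -
      2 * (Real.exp (ω s x) * Real.exp (ω t x)) := by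
    intro x
    rw [hZ]
    simp only [sq_abs]
    rw [two_mul (ω s x), two_mul (ω t x), Real.exp_add, Real.exp_add]
    ring
  obtain ⟨is, es⟩ := field_exp h hs 2
  obtain ⟨it, et⟩ := field_exp h ht 2
  obtain ⟨ist, est⟩ := field_exp_add h hs ht
  have hI : Integrable (fun x => Z x ^ 2) P := by
    simp_rw [hsq]
    exact (is.add it).sub (ist.const_mul 2)
  have hE : ∫ x, Z x ^ 2 ∂P =
      2 * (Real.exp (cv r μ ε 0) - Real.exp (cv r μ ε (dst c s t))) := by
    simp_rw [hsq]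
    have e1 : Integrable (fun x => Real.exp (2 * ω s x) + Real.exp (2 * ω t x)) P := is.add it
    have e2 : Integrable (fun x => 2 * (Real.exp (ω s x) * Real.exp (ω t x))) P := ist.const_mul 2
    rw [integral_sub e1 e2, integral_add is it, integral_const_mul, es, et, est]
    norm_num
    ring
  have hL2 : MemLp Z 2 P := (memLp_two_iff_integrable_sq hZm.aestronglyMeasurable).2 hI
  have hL1 : Integrable Z P := hL2.integrable (by norm_num)
  have hv := variance_nonneg Z P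
  rw [variance_eq_sub hL2] at hv
  have hv' : (∫ x, Z x ∂P) ^ 2 ≤ ∫ x, Z x ^ 2 ∂P := by
    have : P[Z ^ 2] = ∫ x, Z x ^ 2 ∂P := rfl
    linarith
  have h3 : ∫⁻ x, ‖Real.exp (ω s x) - Real.exp (ω t x)‖ₑ ∂P = ENNReal.ofReal (∫ x, Z x ∂P) := by
    rw [ofReal_integral_eq_lintegral_ofReal hL1 (ae_of_all _ fun x => abs_nonneg _)]
    refine lintegral_congr fun x => ?_
    rw [← ofReal_norm, Real.norm_eq_abs]
  rw [h3]
  refine ENNReal.ofReal_le_ofReal (Real.le_sqrt_of_sq_le ?_)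
  rw [← hE]
  exact hv'

/-- variance of linear combinations -/
lemma field_var_lin (h : Field c r μ ε P ω) {n : ℕ} {t : Fin n → ℝ}
    (ht : ∀ i, t i ∈ Ico (0 : ℝ) 1) (a : Fin n → ℝ) :
    Var[fun x => ∑ i, a i * ω (t i) x; P] =
      ∑ i, ∑ j, a i * (a j * cv r μ ε (dst c (t i) (t j))) := by
  rw [variance_fun_sum (fun i => (field_memLp h (ht i)).const_mul (a i))]
  refine Finset.sum_congr rfl fun i _ => Finset.sum_congr rfl fun j _ => ?_
  rw [covariance_const_mul_left, covariance_const_mul_right, h.cov _ (ht i) _ (ht j)]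

lemma dst_comm (c : Bool) (s t : ℝ) : dst c s t = dst c t s := by
  unfold dst; rw [abs_sub_comm]

lemma field_psd (h : Field c r μ ε P ω) {n : ℕ} {t : Fin n → ℝ}
    (ht : ∀ i, t i ∈ Ico (0 : ℝ) 1) :
    Matrix.PosSemidef (fun i j : Fin n => cv r μ ε (dst c (t i) (t j))) := by
  refine Matrix.PosSemidef.of_dotProduct_mulVec_nonneg ?_ fun a => ?_
  · ext i j
    simp [Matrix.conjTranspose, dst_comm c (t i) (t j)]
  · have h1 := variance_nonneg (fun x => ∑ i, a i * ω (t i) x) P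
    rw [field_var_lin h ht] at h1
    refine h1.trans (le_of_eq ?_)
    simp only [dotProduct, Matrix.mulVec, star_trivial]
    refine Finset.sum_congr rfl fun i _ => ?_
    rw [Finset.mul_sum]
    refine Finset.sum_congr rfl fun j _ => ?_
    ring

/-- the law of the field on a finite set -/
lemma grid_law (h : Field c r μ ε P ω) {n : ℕ} {t : Fin n → ℝ}
    (ht : ∀ i, t i ∈ Ico (0 : ℝ) 1) :
    P.map (fun x => WithLp.toLp 2 (fun i => ω (t i) x + cv r μ ε 0 / 2)) =
      multivariateGaussian (0 : EuclideanSpace ℝ (Fin n))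
        (fun i j : Fin n => cv r μ ε (dst c (t i) (t j))) := by
  have hS := field_psd h ht
  set f : Fin n → Ico (0 : ℝ) 1 := fun i => ⟨t i, ht i⟩ with hf
  have hp : IsGaussianProcess (fun i : Fin n => ω (t i)) P := h.gauss.comp_right f
  have h0 : HasGaussianLaw (fun x (i : Fin n) => ω (t i) x) P := by
    let L : (↥(Finset.univ : Finset (Fin n)) → ℝ) →L[ℝ] (Fin n → ℝ) :=
      ContinuousLinearMap.pi fun i => ContinuousLinearMap.proj ⟨i, Finset.mem_univ i⟩
    exact (hp.hasGaussianLaw Finset.univ).map L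
  have h1 : HasGaussianLaw (fun x => WithLp.toLp 2 (fun i : Fin n => ω (t i) x)) P := h0.toLp_pi 2
  have hm : Measurable (fun x => WithLp.toLp 2 (fun i : Fin n => ω (t i) x)) := by
    have : Measurable (fun x (i : Fin n) => ω (t i) x) := measurable_pi_lambda _ fun i =>
      field_meas h (t i)
    exact (WithLp.measurable_toLp 2 _).comp this
  set b : EuclideanSpace ℝ (Fin n) := WithLp.toLp 2 (fun _ => cv r μ ε 0 / 2) with hb
  have h2 : HasGaussianLaw (fun x => WithLp.toLp 2 (fun i : Fin n => ω (t i) x + cv r μ ε 0 / 2)) P := by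
    constructor
    have he : (fun x => WithLp.toLp 2 (fun i : Fin n => ω (t i) x + cv r μ ε 0 / 2)) =
        (fun y => b + y) ∘ (fun x => WithLp.toLp 2 (fun i : Fin n => ω (t i) x)) := by
      funext x
      ext i
      simp [hb, add_comm]
    rw [he, ← Measure.map_map (measurable_const_add b) hm]
    have := h1.isGaussian_map
    infer_instance
  have : IsProbabilityMeasure (P.map
      (fun x => WithLp.toLp 2 (fun i : Fin n => ω (t i) x + cv r μ ε 0 / 2))) :=
    Measure.isProbabilityMeasure_map h2.aemeasurable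
  refine Measure.ext_of_charFun ?_
  funext s
  rw [h2.charFun_map_eq, charFun_multivariateGaussian hS]
  have hin : (fun x => ⟪s, WithLp.toLp 2 (fun i : Fin n => ω (t i) x + cv r μ ε 0 / 2)⟫) =
      fun x => (∑ i, s i * ω (t i) x) + ∑ i, s i * (cv r μ ε 0 / 2) := by
    funext x
    rw [PiLp.inner_apply, ← Finset.sum_add_distrib]
    refine Finset.sum_congr rfl fun i _ => ?_
    simp
    ring
  have hI : ∀ i ∈ (Finset.univ : Finset (Fin n)), Integrable (fun x => s i * ω (t i) x) P :=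
    fun i _ => ((field_gauss h (ht i)).integrable).const_mul _
  have hmean : ∫ x, ⟪s, WithLp.toLp 2 (fun i : Fin n => ω (t i) x + cv r μ ε 0 / 2)⟫ ∂P = 0 := by
    rw [hin, integral_add (integrable_finsetSum _ hI) (integrable_const _),
      integral_finsetSum _ hI]
    simp only [integral_const_mul, integral_const]
    rw [Finset.sum_congr rfl fun i _ => by rw [field_mean h (ht i)]]
    simp
    rw [← Finset.sum_add_distrib]
    refine Finset.sum_eq_zero fun i _ => ?_
    ring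
  have hvar : Var[fun x => ⟪s, WithLp.toLp 2 (fun i : Fin n => ω (t i) x + cv r μ ε 0 / 2)⟫; P] =
      dotProduct s.ofLp (Matrix.mulVec (fun i j : Fin n => cv r μ ε (dst c (t i) (t j))) s.ofLp) := by
    rw [hin, variance_add_const, field_var_lin h ht]
    · simp only [dotProduct, Matrix.mulVec]
      refine Finset.sum_congr rfl fun i _ => ?_
      rw [Finset.mul_sum]
      refine Finset.sum_congr rfl fun j _ => ?_
      ring
    · exact (Finset.measurable_sum _ fun i _ => (field_meas h (t i)).const_mul _).aestronglyMeasurable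
  rw [hmean, hvar]
  simp

lemma grid_gm (h : Field c r μ ε P ω) {n : ℕ} {t : Fin n → ℝ}
    (ht : ∀ i, t i ∈ Ico (0 : ℝ) 1) (p : Fin n → ℝ) (q : ℝ) :
    gm (fun i j : Fin n => cv r μ ε (dst c (t i) (t j))) p q =
      ∫⁻ x, ENNReal.ofReal ((∑ i, p i * Real.exp (ω (t i) x)) ^ q) ∂P := by
  have hm : Measurable (fun x => WithLp.toLp 2 (fun i : Fin n => ω (t i) x + cv r μ ε 0 / 2)) := by
    have : Measurable (fun x (i : Fin n) => ω (t i) x + cv r μ ε 0 / 2) :=
      measurable_pi_lambda _ fun i => (field_meas h (t i)).add_const _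
    exact (WithLp.measurable_toLp 2 _).comp this
  unfold gm
  rw [← grid_law h ht, lintegral_map (by fun_prop) hm]
  refine lintegral_congr fun x => ?_
  simp only [dst_self]
  congr 3
  funext i
  congr 2
  ring

/-- the cells of the grid -/
def cell (k i : ℕ) : Set ℝ := Ico ((i : ℝ) / (3 : ℝ) ^ k) (((i : ℝ) + 1) / (3 : ℝ) ^ k)

lemma cell_meas (k i : ℕ) : MeasurableSet (cell k i) := measurableSet_Ico

lemma cell_vol (k i : ℕ) : volume (cell k i) = ENNReal.ofReal (1 / (3 : ℝ) ^ k) := by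
  rw [cell, Real.volume_Ico]
  congr 1
  ring

lemma pow_pos3 (k : ℕ) : (0 : ℝ) < (3 : ℝ) ^ k := by positivity

lemma cell_sub {k i : ℕ} (hi : i < 3 ^ k) : cell k i ⊆ Ico (0 : ℝ) 1 := by
  intro u hu
  have h3 := pow_pos3 k
  have hi' : (i : ℝ) + 1 ≤ (3 : ℝ) ^ k := by exact_mod_cast hi
  refine ⟨le_trans (by positivity) hu.1, lt_of_lt_of_le hu.2 ?_⟩
  rw [div_le_one h3]
  exact hi'

lemma cell_disj (k : ℕ) : Pairwise (Function.onFun Disjoint fun i : Fin (3 ^ k) => cell k i) := by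
  have h3 := pow_pos3 k
  have key : ∀ i j : ℕ, i < j → Disjoint (cell k i) (cell k j) := by
    intro i j hij
    rw [Set.disjoint_left]
    intro u hu hu'
    have h1 : ((i : ℝ) + 1) / 3 ^ k ≤ (j : ℝ) / 3 ^ k :=
      div_le_div_of_nonneg_right (by exact_mod_cast hij) h3.le
    exact absurd (lt_of_lt_of_le hu.2 (h1.trans hu'.1)) (lt_irrefl _)
  intro i j hij
  rcases lt_or_gt_of_ne (fun h => hij (Fin.ext h) : (i : ℕ) ≠ j) with h | h
  · exact key _ _ h
  · exact (key _ _ h).symm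

lemma cell_union (k : ℕ) : ⋃ i : Fin (3 ^ k), cell k i = Ico (0 : ℝ) 1 := by
  have h3 := pow_pos3 k
  refine Set.Subset.antisymm (iUnion_subset fun i => cell_sub i.2) fun u hu => ?_
  have h0 : 0 ≤ u * 3 ^ k := mul_nonneg hu.1 h3.le
  have h1 : ⌊u * 3 ^ k⌋₊ < 3 ^ k := by
    rw [Nat.floor_lt h0]
    push_cast
    nlinarith [hu.2]
  refine mem_iUnion.2 ⟨⟨_, h1⟩, ?_⟩
  refine ⟨?_, ?_⟩
  · rw [div_le_iff₀ h3]
    exact Nat.floor_le h0
  · rw [lt_div_iff₀ h3]
    exact Nat.lt_floor_add_one _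

lemma grid_mem {k i : ℕ} (hi : i < 3 ^ k) : (i : ℝ) / (3 : ℝ) ^ k ∈ Ico (0 : ℝ) 1 := by
  have h3 := pow_pos3 k
  refine cell_sub hi ⟨le_rfl, ?_⟩
  exact div_lt_div_of_pos_right (by linarith) h3

lemma cell_dist {k i : ℕ} {u : ℝ} (hu : u ∈ cell k i) :
    |u - (i : ℝ) / (3 : ℝ) ^ k| ≤ 1 / (3 : ℝ) ^ k := by
  rw [abs_of_nonneg (sub_nonneg.2 hu.1)]
  have := hu.2
  rw [add_div] at this
  linarith

/-- almost all paths have integrable exponential -/
lemma ae_int (h : Field c r μ ε P ω) :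
    ∀ᵐ x ∂P, IntegrableOn (fun u => Real.exp (ω u x)) (Ico (0 : ℝ) 1) := by
  have hm : Measurable (Function.uncurry fun (x : Ω) (u : ℝ) => ‖Real.exp (ω u x)‖ₑ) :=
    (Real.measurable_exp.comp (h.meas.comp measurable_swap)).enorm
  have h1 : ∫⁻ x, (∫⁻ u in Ico (0 : ℝ) 1, ‖Real.exp (ω u x)‖ₑ) ∂P = 1 := by
    rw [lintegral_lintegral_swap hm.aemeasurable]
    have h2 : ∀ u ∈ Ico (0 : ℝ) 1, ∫⁻ x, ‖Real.exp (ω u x)‖ₑ ∂P = 1 := by
      intro u hu
      obtain ⟨hi, he⟩ := field_exp_one h hu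
      have h3 := ofReal_integral_eq_lintegral_ofReal hi (ae_of_all _ fun x => (Real.exp_pos _).le)
      rw [he, ENNReal.ofReal_one] at h3
      rw [h3]
      refine lintegral_congr fun x => ?_
      rw [← ofReal_norm, Real.norm_of_nonneg (Real.exp_pos _).le]
    rw [setLIntegral_congr_fun measurableSet_Ico h2]
    simp
  have h2 : ∀ᵐ x ∂P, ∫⁻ u in Ico (0 : ℝ) 1, ‖Real.exp (ω u x)‖ₑ < ∞ := by
    refine ae_lt_top' ?_ (by rw [h1]; exact ENNReal.one_ne_top)
    exact (hm.lintegral_prod_right).aemeasurable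
  filter_upwards [h2] with x hx
  refine ⟨?_, hx⟩
  have : Measurable fun u => Real.exp (ω u x) :=
    Real.measurable_exp.comp (h.meas.comp (measurable_prodMk_right (y := x)))
  exact this.aestronglyMeasurable

/-- the difference of the mass and the Riemann sum -/
lemma riemann_L1 (h : Field c r μ ε P ω) {w : ℝ → ℝ} (hw : Measurable w) (hw0 : ∀ u, 0 ≤ w u)
    {K : ℝ} (hK : ∀ u, w u ≤ K) (k : ℕ) (F : ℝ≥0∞)
    (hF : ∀ s ∈ Ico (0 : ℝ) 1, ∀ t ∈ Ico (0 : ℝ) 1, |s - t| ≤ 1 / (3 : ℝ) ^ k →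
      ∫⁻ x, ‖Real.exp (ω s x) - Real.exp (ω t x)‖ₑ ∂P ≤ F) :
    ∫⁻ x, ‖(∑ i : Fin (3 ^ k), (∫ u in cell k i, w u) * Real.exp (ω (((i : ℕ) : ℝ) / (3 : ℝ) ^ k) x))
      - mass w ω x‖ₑ ∂P ≤ ENNReal.ofReal K * F := by
  have hwb : ∀ u, ‖w u‖ ≤ K := fun u => by
    rw [Real.norm_of_nonneg (hw0 u)]; exact hK u
  have hpt : ∀ᵐ x ∂P, ‖(∑ i : Fin (3 ^ k), (∫ u in cell k i, w u) *
      Real.exp (ω (((i : ℕ) : ℝ) / (3 : ℝ) ^ k) x)) - mass w ω x‖ₑ ≤
      ∑ i : Fin (3 ^ k), ∫⁻ u in cell k i, ENNReal.ofReal K *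
        ‖Real.exp (ω u x) - Real.exp (ω (((i : ℕ) : ℝ) / (3 : ℝ) ^ k) x)‖ₑ := by
    filter_upwards [ae_int h] with x hx
    have hwi : IntegrableOn (fun u => w u * Real.exp (ω u x)) (Ico (0 : ℝ) 1) :=
      Integrable.bdd_mul (c := K) hx hw.aestronglyMeasurable (ae_of_all _ hwb)
    have h1 : mass w ω x = ∑ i : Fin (3 ^ k), ∫ u in cell k i, w u * Real.exp (ω u x) := by
      unfold mass
      rw [← cell_union k, integral_iUnion_fintype (s := fun i : Fin (3 ^ k) => cell k i)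
        (fun i => cell_meas k i) (cell_disj k) (fun i => hwi.mono_set (cell_sub i.2))]
    rw [h1, ← Finset.sum_sub_distrib]
    refine (enorm_sum_le _ _).trans (Finset.sum_le_sum fun i _ => ?_)
    have hwc : IntegrableOn w (cell k i) := by
      refine Measure.integrableOn_of_bounded (M := K) ?_ hw.aestronglyMeasurable
        (ae_of_all _ hwb)
      rw [cell_vol]
      exact ENNReal.ofReal_ne_top
    rw [← integral_mul_const, ← integral_sub (hwc.mul_const _) (hwi.mono_set (cell_sub i.2))]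
    refine (enorm_integral_le_lintegral_enorm _).trans (lintegral_mono fun u => ?_)
    rw [← mul_sub, enorm_mul, ← enorm_neg (Real.exp _ - Real.exp _), neg_sub]
    refine mul_le_mul_left ?_ _
    rw [← ofReal_norm]
    exact ENNReal.ofReal_le_ofReal (hwb u)
  have hm : ∀ i : Fin (3 ^ k), Measurable (Function.uncurry fun (x : Ω) (u : ℝ) =>
      ENNReal.ofReal K * ‖Real.exp (ω u x) - Real.exp (ω (((i : ℕ) : ℝ) / (3 : ℝ) ^ k) x)‖ₑ) := by
    intro i
    have h1 : Measurable fun p : Ω × ℝ => Real.exp (ω p.2 p.1) :=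
      Real.measurable_exp.comp (h.meas.comp measurable_swap)
    have h2 : Measurable fun p : Ω × ℝ => Real.exp (ω (((i : ℕ) : ℝ) / (3 : ℝ) ^ k) p.1) :=
      Real.measurable_exp.comp ((field_meas h _).comp measurable_fst)
    exact (h1.sub h2).enorm.const_mul _
  refine (lintegral_mono_ae hpt).trans ?_
  rw [lintegral_finsetSum _ fun i _ => (hm i).lintegral_prod_right]
  have h4 : ∀ i ∈ (Finset.univ : Finset (Fin (3 ^ k))),
      ∫⁻ x, (∫⁻ u in cell k i, ENNReal.ofReal K *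
        ‖Real.exp (ω u x) - Real.exp (ω (((i : ℕ) : ℝ) / (3 : ℝ) ^ k) x)‖ₑ) ∂P ≤
      ENNReal.ofReal K * F * ENNReal.ofReal (1 / (3 : ℝ) ^ k) := by
    intro i _
    rw [lintegral_lintegral_swap (hm i).aemeasurable]
    have h5 : ∀ u ∈ cell k i, ∫⁻ x, ENNReal.ofReal K *
        ‖Real.exp (ω u x) - Real.exp (ω (((i : ℕ) : ℝ) / (3 : ℝ) ^ k) x)‖ₑ ∂P ≤
        ENNReal.ofReal K * F := by
      intro u hu
      rw [lintegral_const_mul]
      · refine mul_le_mul_right ?_ _
        exact hF u (cell_sub i.2 hu) _ (grid_mem i.2) (cell_dist hu)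
      · have h1 := field_meas h u
        have h2 := field_meas h (((i : ℕ) : ℝ) / (3 : ℝ) ^ k)
        fun_prop
    refine (setLIntegral_mono' (cell_meas k i) h5).trans ?_
    rw [setLIntegral_const, cell_vol]
  refine (Finset.sum_le_sum h4).trans ?_
  rw [Finset.sum_const, Finset.card_univ, Fintype.card_fin, nsmul_eq_mul]
  have h6 : ((3 ^ k : ℕ) : ℝ≥0∞) * ENNReal.ofReal (1 / (3 : ℝ) ^ k) = 1 := by
    rw [← ENNReal.ofReal_natCast, ← ENNReal.ofReal_mul (by positivity)]
    push_cast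
    rw [mul_one_div_cancel (pow_pos3 k).ne', ENNReal.ofReal_one]
  rw [mul_comm (ENNReal.ofReal K * F), ← mul_assoc, h6, one_mul]

lemma dst_bounds (c : Bool) {s t : ℝ} (hs : s ∈ Ico (0 : ℝ) 1) (ht : t ∈ Ico (0 : ℝ) 1) :
    0 ≤ dst c s t ∧ dst c s t ≤ |s - t| := by
  have h1 : |s - t| < 1 := by
    rw [abs_lt]
    exact ⟨by linarith [hs.1, ht.2], by linarith [hs.2, ht.1]⟩
  unfold dst
  split_ifs
  · exact ⟨le_min (abs_nonneg _) (by linarith), min_le_left _ _⟩
  · exact ⟨abs_nonneg _, le_rfl⟩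

end Field

theorem RIE_holds : St_RIE := by
  intro c r μ ε _ hμ hε _ Ω _ P _ ω h w hw hw0 hwK q B hB
  obtain ⟨K, hK⟩ := hwK
  set v := cv r μ ε 0 with hv
  set D := deriv (fun t => Real.log (r t)) ε with hD
  set A := |μ * D| with hA
  have hcv : ∀ d : ℝ, 0 ≤ d → d < ε → v - A * d ≤ cv r μ ε d := by
    intro d hd0 hd
    have h1 : cv r μ ε d = v - μ * D * d := by
      rw [hv, cv, cv, if_neg (not_le.2 hd), if_neg (not_le.2 hε), ← hD]
      field_simp
      ring
    rw [h1]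
    have := le_abs_self (μ * D)
    nlinarith
  set F : ℕ → ℝ≥0∞ := fun k =>
    ENNReal.ofReal (Real.sqrt (2 * (Real.exp v - Real.exp (v - A * (1 / (3 : ℝ) ^ k))))) with hF
  have h30 : Tendsto (fun k : ℕ => 1 / (3 : ℝ) ^ k) atTop (𝓝 0) := by
    simpa [one_div, inv_pow] using
      tendsto_pow_atTop_nhds_zero_of_lt_one (r := (3 : ℝ)⁻¹) (by norm_num) (by norm_num)
  have hk : ∀ᶠ k : ℕ in atTop, 1 / (3 : ℝ) ^ k < ε := h30.eventually (gt_mem_nhds hε)
  have hFb : ∀ k : ℕ, 1 / (3 : ℝ) ^ k < ε → ∀ s ∈ Ico (0 : ℝ) 1, ∀ t ∈ Ico (0 : ℝ) 1,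
      |s - t| ≤ 1 / (3 : ℝ) ^ k → ∫⁻ x, ‖Real.exp (ω s x) - Real.exp (ω t x)‖ₑ ∂P ≤ F k := by
    intro k hk s hs t ht hst
    refine (field_dist h hs ht).trans (ENNReal.ofReal_le_ofReal (Real.sqrt_le_sqrt ?_))
    obtain ⟨hd0, hd1⟩ := dst_bounds c hs ht
    have h2 := hcv _ hd0 (by linarith)
    have h3 : v - A * (1 / (3 : ℝ) ^ k) ≤ cv r μ ε (dst c s t) := by
      refine le_trans ?_ h2
      have : A * dst c s t ≤ A * (1 / (3 : ℝ) ^ k) :=
        mul_le_mul_of_nonneg_left (by linarith) (abs_nonneg _)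
      linarith
    have h4 := Real.exp_le_exp.2 h3
    linarith
  have hFlim : Tendsto (fun k => ENNReal.ofReal K * F k) atTop (𝓝 0) := by
    have h1 : Tendsto (fun k : ℕ => Real.sqrt (2 * (Real.exp v -
        Real.exp (v - A * (1 / (3 : ℝ) ^ k))))) atTop
        (𝓝 (Real.sqrt (2 * (Real.exp v - Real.exp (v - A * 0))))) := by
      have hc : Continuous fun y : ℝ => Real.sqrt (2 * (Real.exp v - Real.exp (v - A * y))) := by
        fun_prop
      exact (hc.tendsto 0).comp h30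
    have h2 : Tendsto F atTop (𝓝 0) := by
      rw [mul_zero, sub_zero, sub_self, mul_zero, Real.sqrt_zero] at h1
      have h3 := (ENNReal.continuous_ofReal.tendsto _).comp h1
      rw [ENNReal.ofReal_zero] at h3
      exact h3
    have h3 := ENNReal.Tendsto.const_mul (a := ENNReal.ofReal K) h2 (Or.inr ENNReal.ofReal_ne_top)
    simpa using h3
  set R : ℕ → Ω → ℝ := fun k x => ∑ i : Fin (3 ^ k), (∫ u in cell k i, w u) *
    Real.exp (ω (((i : ℕ) : ℝ) / (3 : ℝ) ^ k) x) with hR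
  have hRm : ∀ k, Measurable (R k) := by
    intro k
    refine Finset.measurable_sum _ fun i _ => ?_
    exact (Real.measurable_exp.comp (field_meas h _)).const_mul _
  have hMm : AEStronglyMeasurable (mass w ω) P := by
    have h1 : StronglyMeasurable (Function.uncurry fun (x : Ω) (u : ℝ) => w u * Real.exp (ω u x)) := by
      refine Measurable.stronglyMeasurable ?_
      exact (hw.comp measurable_snd).mul
        (Real.measurable_exp.comp (h.meas.comp measurable_swap))
    exact (h1.integral_prod_right (ν := volume.restrict (Ico (0 : ℝ) 1))).aestronglyMeasurable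
  have hLp : Tendsto (fun k => eLpNorm (R k - mass w ω) 1 P) atTop (𝓝 0) := by
    refine tendsto_of_tendsto_of_tendsto_of_le_of_le' tendsto_const_nhds hFlim
      (Eventually.of_forall fun k => zero_le) ?_
    filter_upwards [hk] with k hk
    rw [eLpNorm_one_eq_lintegral_enorm]
    exact riemann_L1 h hw hw0 hK k (F k) (hFb k hk)
  have hTM := tendstoInMeasure_of_tendsto_eLpNorm one_ne_zero
    (fun k => (hRm k).aestronglyMeasurable) hMm hLp
  obtain ⟨ns, hns, hae⟩ := hTM.exists_seq_tendsto_ae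
  have hmass0 : ∀ x, 0 ≤ mass w ω x := fun x =>
    integral_nonneg fun u => mul_nonneg (hw0 u) (Real.exp_pos _).le
  have hpt : ∀ᵐ x ∂P, ENNReal.ofReal (mass w ω x ^ q) ≤
      liminf (fun j => ENNReal.ofReal (R (ns j) x ^ q)) atTop := by
    filter_upwards [hae] with x hx
    by_cases hq : mass w ω x ≠ 0 ∨ 0 ≤ q
    · have h1 : Tendsto (fun j => ENNReal.ofReal (R (ns j) x ^ q)) atTop
          (𝓝 (ENNReal.ofReal (mass w ω x ^ q))) :=
        (ENNReal.continuous_ofReal.tendsto _).comp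
          ((Real.continuousAt_rpow_const _ _ hq).tendsto.comp hx)
      rw [h1.liminf_eq]
    · push Not at hq
      rw [hq.1, Real.zero_rpow hq.2.ne, ENNReal.ofReal_zero]
      exact zero_le
  refine (lintegral_mono_ae hpt).trans ?_
  refine (lintegral_liminf_le fun j => ((hRm (ns j)).pow_const q).ennreal_ofReal).trans ?_
  have hfin : ∀ᶠ j in atTop, ∫⁻ x, ENNReal.ofReal (R (ns j) x ^ q) ∂P ≤ B := by
    filter_upwards [hns.tendsto_atTop.eventually hB] with j hj
    refine le_trans (le_of_eq ?_) hj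
    exact (grid_gm h (t := fun i : Fin (3 ^ (ns j)) => ((i : ℕ) : ℝ) / (3 : ℝ) ^ (ns j))
      (fun i => grid_mem i.2) (fun i => ∫ u in cell (ns j) i, w u) q).symm
  refine (liminf_le_liminf hfin).trans ?_
  rw [liminf_const]

end Pool.Agent.L5helper94.CG
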